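import Pool.Agent.V5helper94.SV.Low
import Pool.Agent.V5helper52.TR.ZC

/-!
# Étale motivic cohomology of schemes over finite fields with weight complexes of abelian type

The known results on the finite generation of the groups `H^i(X_et, ℤ^c(n))`, `n < 0`, for schemes over
finite fields whose weight complexes are built from Chow motives of abelian type, and the arithmetic
schemes which are obtained from such schemes by closed-open decompositions and products with lines.
-/

set_option autoImplicit false

open CategoryTheory AlgebraicGeometry Pool.Agent.Y116.UV Pool.Agent.V5helper77.GW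
  Pool.Agent.V5helper48.WC Pool.Agent.V5helper94.SV
open Pool.Agent.V5helper52.TR (IsCycleCohomology FinGen loc_finGen)

universe w

namespace Pool.Agent.V5helper92.BK

/-- The scheme `X` over the field `k`, regarded as an arithmetic scheme. -/
noncomputable def res (k : Type) [Field k] (X : Sch k) : Sch ℤ :=
  Over.mk (X.hom ≫ Spec.map (CommRingCat.ofHom (algebraMap ℤ k)))

/-- The theories of Chow motives, with their tensor products, over all finite fields. -/
structure Theories where
  /-- the Chow motives -/
  T : ∀ (k : Type) [Field k] [Finite k], ChowData k
  /-- their tensor products -/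
  D : ∀ (k : Type) [Field k] [Finite k], TensorData (T k)

/-- The weight complex of `X` is of abelian type: it is in the thick subcategory generated by the Chow
motives of abelian type, that is by the class `LowChow 1` of motives which is generated by the motives
of the smooth proper schemes of dimension at most one under sums, summands, tensor products, twists. -/
def IsAbelian (M : Theories) (k : Type) [Field k] [Finite k] (X : Sch k) : Prop :=
  (M.T k).Built (LowChow (M.T k) (M.D k) 1) X

/-- The known properties:

* `deJong`: de Jong's theorem on alterations;
* `chow`, `transfer`, `tensor`: the properties of weight complexes (Gillet and Soulé);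
* `cycle`: the properties of the groups `H n i X = H^i(X_et, ℤ^c(n))`, see `IsCycleCohomology`;
* `abelian`: for separated schemes of finite type over finite fields with weight complexes of abelian type
  the groups `H^i(X_et, ℤ^c(n))`, `n < 0`, are finitely generated. For smooth proper schemes this is due to
  Soulé and Geisser. In general it follows from known theorems: the weight complex is a complex of motives
  of abelian type, which splits according to the generalized eigenvalues of Frobenius (Kimura). On the
  part without the eigenvalue `q^n` the groups `CH_n(M, j) ⊗ ℚ` vanish (Soulé). The part with the eigenvalue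
  `q^n`, `n < 0`, has no cohomology, since the eigenvalues of Frobenius on the cohomology with compact
  support are algebraic integers (Deligne), hence it is homotopic to zero (Kimura, and Clozel: for some `ℓ`
  homological equivalence is numerical equivalence). So `H^i(X, ℚ^c(n)) = 0` by the weight spectral
  sequence, and `H^i(X_et, ℤ^c(n))` is finite (Geisser). -/
structure IsKnown (M : Theories) (H : ℤ → ℤ → Sch ℤ → ModuleCat.{w} ℤ) : Prop where
  deJong : ∀ (k : Type) [Field k] [Finite k], DeJong k
  chow : ∀ (k : Type) [Field k] [Finite k], IsChowTheory IsSmProper (M.T k)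
  transfer : ∀ (k : Type) [Field k] [Finite k], HasTransfer (M.T k)
  tensor : ∀ (k : Type) [Field k] [Finite k], IsTensorChow (M.D k)
  cycle : IsCycleCohomology H
  abelian : ∀ (k : Type) [Field k] [Finite k] (X : Sch k), FT True X → IsAbelian M k X →
    ∀ n < 0, ∀ i, Module.Finite ℤ (H n i (res k X))

/-- The smallest class of arithmetic schemes which contains the separated schemes of finite type over
finite fields `k` in the classes `P k`, and the arithmetic schemes of dimension at most one, which is
stable under isomorphisms and products `X × 𝔸¹`, `X` affine, and which contains, if `Z` is a closed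
subscheme of `X` and `U` its complement, all three schemes `Z`, `X`, `U` if it contains two of them. -/
inductive Obtained (P : ∀ (k : Type) [Field k] [Finite k], Sch k → Prop) : Sch ℤ → Prop
  | finite (k : Type) [Field k] [Finite k] {X : Sch k} (hX : FT True X) (hb : P k X) :
      Obtained P (res k X)
  | dimOne {X : Sch ℤ} (hX : FT True X) (hd : topologicalKrullDim X.left ≤ 1) : Obtained P X
  | iso {X Y : Sch ℤ} (hX : FT True X) (e : Nonempty (X ≅ Y)) (h : Obtained P X) : Obtained P Y
  | total {Z X U : Sch ℤ} (i : Z ⟶ X) (j : U ⟶ X) (hX : FT True X) (ht : IsTriple i j)
      (hZ : Obtained P Z) (hU : Obtained P U) : Obtained P X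
  | opened {Z X U : Sch ℤ} (i : Z ⟶ X) (j : U ⟶ X) (hX : FT True X) (ht : IsTriple i j)
      (hZ : Obtained P Z) (h : Obtained P X) : Obtained P U
  | closed {Z X U : Sch ℤ} (i : Z ⟶ X) (j : U ⟶ X) (hX : FT True X) (ht : IsTriple i j)
      (h : Obtained P X) (hU : Obtained P U) : Obtained P Z
  | line (A : Type) [CommRing A] [Algebra ℤ A] [Algebra.FiniteType ℤ A] (h : Obtained P (aff ℤ A)) :
      Obtained P (aff ℤ (Polynomial A))

/-- Finite generation for the arithmetic schemes obtained from schemes over finite fields with weight
complexes of abelian type. -/
theorem finite_obtained {M : Theories} {H : ℤ → ℤ → Sch ℤ → ModuleCat.{w} ℤ} (h : IsKnown M H)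
    {P : ∀ (k : Type) [Field k] [Finite k], Sch k → Prop}
    (hP : ∀ (k : Type) [Field k] [Finite k] (X : Sch k), P k X → IsAbelian M k X)
    {X : Sch ℤ} (hX : Obtained P X) : ∀ n < 0, ∀ i, Module.Finite ℤ (H n i X) := by
  have hL := loc_finGen h.cycle (n := -1) (by norm_num)
  have : FinGen H (-1) X := by
    induction hX with
    | finite k hX hb => exact fun n hn i => h.abelian k _ hX (hP k _ hb) n (by omega) i
    | dimOne hX hd => exact fun n hn i => h.cycle.dimOne _ hX hd n (by omega) i
    | iso hX e _ ih => exact hL.iso hX e ih
    | total i j hX ht _ _ h1 h2 => exact hL.total i j hX ht h1 h2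
    | opened i j hX ht _ _ h1 h2 => exact hL.opened i j hX ht h1 h2
    | closed i j hX ht _ _ h1 h2 => exact hL.closed i j hX ht h1 h2
    | line A _ ih => exact hL.line A ih
  exact fun n hn i => this n (by omega) i

/-- The weight complexes of the schemes of dimension at most one are of abelian type. -/
lemma isAbelian_dim {M : Theories} {H : ℤ → ℤ → Sch ℤ → ModuleCat.{w} ℤ} (h : IsKnown M H)
    (k : Type) [Field k] [Finite k] (X : Sch k) (hX : FT True X)
    (hd : topologicalKrullDim X.left ≤ 1) : IsAbelian M k X := by
  have hs : ∀ X : Sch k, IsSmProj X → IsSmProper X := fun X hX => .of_smProj hX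
  have h2 : ∀ X : Sch k, IsSmProper X → FT True X := fun X hX => hX.ft
  exact (graded_of (h.chow k) lowChow_stable hs h2 1
    (deJong_devissage (h.chow k) (h.transfer k) lowChow_stable (h.deJong k) 1)).1.mp
    (fun X hX hd => .variety hX hd) X hX (by exact_mod_cast hd)

/-- The closure properties `Cls` of the schemes with weight complexes of abelian type. -/
theorem cls_abelian {M : Theories} {H : ℤ → ℤ → Sch ℤ → ModuleCat.{w} ℤ} (h : IsKnown M H)
    (k : Type) [Field k] [Finite k] : Pool.Agent.V5helper52.SF.Cls True (IsAbelian M k) :=
  cls_chow (h.chow k) (h.tensor k) lowChow_stable (fun _ _ hM hN => .tensor hM hN)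
    (isAbelian_dim h k)

end Pool.Agent.V5helper92.BK
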