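import Pool.Agent.V5helper92.BK.Defs
import Pool.Agent.V5helper92.WC.Main

/-!
# Étale motivic cohomology of schemes over finite fields with weight complexes of abelian type, II

The published results on the finite generation of the groups `H^i(X_et, ℤ^c(n))`, `n < 0`, for smooth proper
schemes over finite fields whose Chow motives are of abelian type, and the finite generation for the
arithmetic schemes which are obtained from such schemes.
-/

set_option autoImplicit false

open CategoryTheory AlgebraicGeometry Pool.Agent.Y116.UV Pool.Agent.V5helper77.GW
  Pool.Agent.V5helper48.WC Pool.Agent.V5helper94.SV Pool.Agent.V5helper92.WC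
open Pool.Agent.V5helper52.TR (IsCycleCohomology FinGen loc_finGen)

universe w

namespace Pool.Agent.V5helper92.BK

/-- The known properties:

* `deJong`: de Jong's theorem on alterations;
* `chow`, `transfer`, `tensor`: the properties of weight complexes (Gillet and Soulé);
* `cycle`: the properties of the groups `H n i X = H^i(X_et, ℤ^c(n))`, see `IsCycleCohomology`;
* `smooth` (Soulé, Geisser): for smooth proper schemes over finite fields with Chow motives of abelian type
  the groups `H^i(X_et, ℤ^c(n))`, `n < 0`, are finitely generated. -/
structure IsPublished (M : Theories) (H : ℤ → ℤ → Sch ℤ → ModuleCat.{w} ℤ) : Prop where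
  deJong : ∀ (k : Type) [Field k] [Finite k], DeJong k
  chow : ∀ (k : Type) [Field k] [Finite k], IsChowTheory IsSmProper (M.T k)
  transfer : ∀ (k : Type) [Field k] [Finite k], HasTransfer (M.T k)
  tensor : ∀ (k : Type) [Field k] [Finite k], IsTensorChow (M.D k)
  cycle : IsCycleCohomology H
  smooth : ∀ (k : Type) [Field k] [Finite k] (X : Sch k), IsSmProper X →
    LowChow (M.T k) (M.D k) 1 ((M.T k).h X) → ∀ n < 0, ∀ i, Module.Finite ℤ (H n i (res k X))

/-- For all separated schemes `X` of finite type over finite fields with weight complexes of abelian type
the groups `H^i(X_et, ℤ^c(n))`, `n < 0`, are finitely generated.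

For smooth proper schemes this is due to Soulé and Geisser. In general it follows from known theorems: the
weight complex is a complex of motives of abelian type, which splits according to the generalized
eigenvalues of Frobenius (Kimura). On the part without the eigenvalue `q^n` the groups `CH_n(M, j) ⊗ ℚ`
vanish (Soulé). The part with the eigenvalue `q^n`, `n < 0`, has no cohomology, since the eigenvalues of
Frobenius on the cohomology with compact support are algebraic integers (Deligne), hence it is homotopic to
zero (Kimura, and Clozel: for some `ℓ` homological equivalence is numerical equivalence). So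
`H^i(X, ℚ^c(n)) = 0` by the weight spectral sequence, and `H^i(X_et, ℤ^c(n))` is finite (Geisser). -/
def AbelianComplexes (M : Theories) (H : ℤ → ℤ → Sch ℤ → ModuleCat.{w} ℤ) : Prop :=
  ∀ (k : Type) [Field k] [Finite k] (X : Sch k), FT True X → IsAbelian M k X →
    ∀ n < 0, ∀ i, Module.Finite ℤ (H n i (res k X))

/-- Finite generation for the arithmetic schemes which are obtained from schemes over finite fields for
which it holds. -/
theorem finite_obtained_of {H : ℤ → ℤ → Sch ℤ → ModuleCat.{w} ℤ} (h : IsCycleCohomology H)
    {P : ∀ (k : Type) [Field k] [Finite k], Sch k → Prop}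
    (hP : ∀ (k : Type) [Field k] [Finite k] (X : Sch k), FT True X → P k X →
      ∀ n < 0, ∀ i, Module.Finite ℤ (H n i (res k X)))
    {X : Sch ℤ} (hX : Obtained P X) : ∀ n < 0, ∀ i, Module.Finite ℤ (H n i X) := by
  have hL := loc_finGen h (n := -1) (by norm_num)
  have : FinGen H (-1) X := by
    induction hX with
    | finite k hX hb => exact fun n hn i => hP k _ hX hb n (by omega) i
    | dimOne hX hd => exact fun n hn i => h.dimOne _ hX hd n (by omega) i
    | iso hX e _ ih => exact hL.iso hX e ih
    | total i j hX ht _ _ h1 h2 => exact hL.total i j hX ht h1 h2
    | opened i j hX ht _ _ h1 h2 => exact hL.opened i j hX ht h1 h2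
    | closed i j hX ht _ _ h1 h2 => exact hL.closed i j hX ht h1 h2
    | line A _ ih => exact hL.line A ih
  exact fun n hn i => this n (by omega) i

variable {M : Theories} {H : ℤ → ℤ → Sch ℤ → ModuleCat.{w} ℤ}

/-- The weight complexes of the schemes of dimension at most one are of abelian type. -/
lemma IsPublished.dim (h : IsPublished M H) (k : Type) [Field k] [Finite k] (X : Sch k)
    (hX : FT True X) (hd : topologicalKrullDim X.left ≤ 1) : IsAbelian M k X := by
  have hs : ∀ X : Sch k, IsSmProj X → IsSmProper X := fun X hX => .of_smProj hX
  have h2 : ∀ X : Sch k, IsSmProper X → FT True X := fun X hX => hX.ft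
  exact (graded_of (h.chow k) lowChow_stable hs h2 1
    (deJong_devissage (h.chow k) (h.transfer k) lowChow_stable (h.deJong k) 1)).1.mp
    (fun X hX hd => .variety hX hd) X hX (by exact_mod_cast hd)

/-- The weight complexes of the schemes which are built from curves and from schemes with weight
complexes of abelian type. -/
lemma IsPublished.built (h : IsPublished M H) (k : Type) [Field k] [Finite k] {S : Sch k → Prop}
    (hS : ∀ X, S X → IsAbelian M k X) {X : Sch k} (hX : BuiltFrom k 1 S X) : IsAbelian M k X := by
  refine builtFrom_le (P := fun X => IsAbelian M k X)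
    (cls_chow (h.chow k) (h.tensor k) lowChow_stable (fun _ _ hM hN => .tensor hM hN)
      (h.dim k)) (fun Y hY hd => h.dim k Y hY ?_) hS hX
  exact_mod_cast hd

/-- The Chow motives of the smooth proper schemes which are built from curves and from schemes with weight
complexes of abelian type. -/
lemma IsPublished.motive (h : IsPublished M H) (k : Type) [Field k] [Finite k] {S : Sch k → Prop}
    (hS : ∀ X, S X → IsAbelian M k X) {X : Sch k} (hs : IsSmProper X) (hX : BuiltFrom k 1 S X) :
    LowChow (M.T k) (M.D k) 1 ((M.T k).h X) :=
  (built_smooth (h.chow k) lowChow_stable.toIsSummandClass hs).mp (h.built k hS hX)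

end Pool.Agent.V5helper92.BK
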